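import Pool.Agent.Helper89.HY.St2

set_option autoImplicit false

noncomputable section

namespace Pool.Agent.Helper24.HY

open Finset Matrix
open Pool.Agent.Helper56.SW (Tm Sm Nq N τ)
open Pool.Agent.Helper89.HY

theorem tau_prime (p : ℕ) [hp : Fact p.Prime] : τ p = 2 := by
  unfold Pool.Agent.Helper56.SW.τ
  rw [hp.out.divisors, Finset.card_pair hp.out.one_lt.ne]
  norm_num

theorem Vn_eq (p : ℕ) [Fact p.Prime] (γ : ZMod p) : Vn p γ = Vg p γ := by
  unfold Vn Vg; rfl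

theorem psi_eq (p : ℕ) [hp : Fact p.Prime] (ψ : AddChar (ZMod p) ℂ) (hψ : ψ.IsPrimitive) :
    ∃ u : ZMod p, u ≠ 0 ∧ ∀ x, ψ x = ad p (u * x) := by
  have hp0 : p ≠ 0 := hp.out.ne_zero
  have h1 : (ψ 1) ^ p = 1 := by
    rw [← AddChar.map_nsmul_eq_pow]
    simp
  have hstd : (ZMod.stdAddChar (1 : ZMod p) : ℂ) = Complex.exp (2 * Real.pi * Complex.I / p) := by
    have h := ZMod.stdAddChar_coe (N := p) 1
    simpa using h
  have hprim : IsPrimitiveRoot (ZMod.stdAddChar (1 : ZMod p) : ℂ) p := by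
    rw [hstd]
    exact Complex.isPrimitiveRoot_exp p hp0
  have : NeZero p := ⟨hp0⟩
  obtain ⟨k, hk, hk1⟩ := hprim.eq_pow_of_pow_eq_one h1
  have hval : ∀ x : ZMod p, ψ x = ad p ((k : ZMod p) * x) := by
    intro x
    have hx : x = x.val • (1 : ZMod p) := by
      rw [nsmul_eq_mul, mul_one, ZMod.natCast_zmod_val]
    have e1 : ψ x = (ψ 1) ^ x.val := by
      conv_lhs => rw [hx]
      rw [AddChar.map_nsmul_eq_pow]
    have hx2 : (k : ZMod p) * x = (k * x.val) • (1 : ZMod p) := by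
      rw [nsmul_eq_mul, mul_one, Nat.cast_mul, ZMod.natCast_zmod_val]
    rw [e1, ← hk1, ad, hx2, AddChar.map_nsmul_eq_pow, pow_mul]
  refine ⟨(k : ZMod p), ?_, hval⟩
  intro h0
  apply hψ (one_ne_zero)
  ext x
  rw [AddChar.mulShift_apply, hval, h0]
  simp [ad]

theorem hLPR (hW : StWB) : StLPR := by
  intro p hp ψ hψ γ hγ m
  obtain ⟨u, hu, hψu⟩ := psi_eq p ψ hψ
  obtain ⟨hc, hb⟩ := hW p γ hγ
  rw [tau_prime, Vn_eq]
  have hp1 : (1 : ℝ) ≤ (p : ℝ) := by exact_mod_cast hp.out.one_lt.le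
  have hsum : ∀ x : Fin 6 → ZMod p, ψ (∑ i, m i * x i) = ad p (∑ i, (u * m i) * x i) := by
    intro x
    rw [hψu, Finset.mul_sum]
    congr 1
    apply Finset.sum_congr rfl
    intro i _
    ring
  simp only [hsum]
  by_cases hm : m = 0
  · have hAn : (An p m : ℝ) = p := by
      have : An p m = p := by
        unfold An
        rw [hm]
        simp [ZMod.card]
      exact_mod_cast this
    have h1 : ‖∑ x ∈ Vg p γ, ad p (∑ i, (u * m i) * x i)‖ ≤ ((Vg p γ).card : ℝ) := by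
      have : ∀ x ∈ Vg p γ, ad p (∑ i, (u * m i) * x i) = 1 := by
        intro x _
        rw [hm]
        simp [ad]
      rw [Finset.sum_congr rfl this]
      simp
    rw [hAn]
    have h3 : (0 : ℝ) ≤ (p : ℝ) ^ 3 := by positivity
    calc ‖∑ x ∈ Vg p γ, ad p (∑ i, (u * m i) * x i)‖ ≤ ((Vg p γ).card : ℝ) := h1
      _ ≤ 5 * (p : ℝ) ^ 3 := hc
      _ ≤ 2 ^ 5 * (p : ℝ) ^ 2 * p := by nlinarith
  · have hAn : (1 : ℝ) ≤ (An p m : ℝ) := by
      have : 1 ≤ An p m := by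
        unfold An
        apply Finset.card_pos.mpr
        exact ⟨0, by simp⟩
      exact_mod_cast this
    have hum : (fun i => u * m i) ≠ 0 := by
      intro h
      apply hm
      funext i
      have := congrFun h i
      simpa [hu] using this
    have h1 := hb (fun i => u * m i) hum
    have h2 : (0 : ℝ) ≤ (p : ℝ) ^ 2 := by positivity
    calc ‖∑ x ∈ Vg p γ, ad p (∑ i, (u * m i) * x i)‖ ≤ 20 * (p : ℝ) ^ 2 := h1
      _ ≤ 2 ^ 5 * (p : ℝ) ^ 2 * 1 := by nlinarith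
      _ ≤ 2 ^ 5 * (p : ℝ) ^ 2 * An p m := by
          apply mul_le_mul_of_nonneg_left hAn
          positivity

end Pool.Agent.Helper24.HY
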